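import Pool.Agent.Q92.AR.Stm2

set_option autoImplicit false
set_option linter.unusedSectionVars false
set_option linter.deprecated false

namespace Pool.Agent.Q225.AR

open Pool.Agent.Q92.AR NumberField IsDedekindDomain Pool.Agent.Q5.BR

/-- restriction of Frobenius elements -/
theorem fr1 (F E M : Type) [Field F] [NumberField F] [Field E] [NumberField E] [Field M]
    [NumberField M] [Algebra F E] [Algebra E M] [Algebra F M] [IsScalarTower F E M] [IsGalois F E]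
    [IsGalois F M] (v : HeightOneSpectrum (𝓞 F)) (g : M ≃ₐ[F] M) (hg : IsFrobenius v g) :
    IsFrobenius v (AlgEquiv.restrictNormal g E) := by
  obtain ⟨w, hwm, hwv, hw⟩ := hg
  have hmap : algebraMap (𝓞 F) (𝓞 M) = (algebraMap (𝓞 E) (𝓞 M)).comp (algebraMap (𝓞 F) (𝓞 E)) :=
    IsScalarTower.algebraMap_eq (𝓞 F) (𝓞 E) (𝓞 M)
  refine ⟨w.comap (algebraMap (𝓞 E) (𝓞 M)), Ideal.isMaximal_comap_of_isIntegral_of_isMaximal w,
    ?_, fun x => ?_⟩
  · rw [Ideal.comap_comap, ← hmap, hwv]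
  · have hgx : IsIntegral ℤ (AlgEquiv.restrictNormal g E (x : E)) :=
      x.2.map (AlgEquiv.restrictNormal g E)
    obtain ⟨z, hz⟩ : ∃ z : 𝓞 E, (z : E) = AlgEquiv.restrictNormal g E (x : E) := ⟨⟨_, hgx⟩, rfl⟩
    refine ⟨z - x ^ Ideal.absNorm v.asIdeal, ?_, by rw [← hz]; rfl⟩
    rw [Ideal.mem_comap]
    obtain ⟨y, hy, hyx⟩ := hw (algebraMap (𝓞 E) (𝓞 M) x)
    have h1 : algebraMap (𝓞 E) (𝓞 M) (z - x ^ Ideal.absNorm v.asIdeal) = y := by
      apply RingOfIntegers.ext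
      rw [hyx, map_sub, map_pow]
      have h2 : ((algebraMap (𝓞 E) (𝓞 M) z : 𝓞 M) : M) = algebraMap E M (z : E) := rfl
      have h3 : ((algebraMap (𝓞 E) (𝓞 M) x : 𝓞 M) : M) = algebraMap E M (x : E) := rfl
      have h4 : ((algebraMap (𝓞 E) (𝓞 M) z - (algebraMap (𝓞 E) (𝓞 M) x) ^
          Ideal.absNorm v.asIdeal : 𝓞 M) : M) = ((algebraMap (𝓞 E) (𝓞 M) z : 𝓞 M) : M) -
          ((algebraMap (𝓞 E) (𝓞 M) x : 𝓞 M) : M) ^ Ideal.absNorm v.asIdeal := rfl
      rw [h4, h2, h3, hz, AlgEquiv.restrictNormal_commutes]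
    rw [h1]
    exact hy

/-- restriction of scalars -/
theorem fr2 (F L M : Type) [Field F] [NumberField F] [Field L] [NumberField L] [Field M]
    [NumberField M] [Algebra F L] [Algebra L M] [Algebra F M] [IsScalarTower F L M]
    (w : HeightOneSpectrum (𝓞 L)) (g : M ≃ₐ[L] M) (hg : IsFrobenius w g) (h1 : rdeg F w = 1) :
    IsFrobenius (w.under (𝓞 F)) (AlgEquiv.restrictScalars F g) := by
  obtain ⟨P, hPm, hPw, hP⟩ := hg
  have hmap : algebraMap (𝓞 F) (𝓞 M) = (algebraMap (𝓞 L) (𝓞 M)).comp (algebraMap (𝓞 F) (𝓞 L)) :=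
    IsScalarTower.algebraMap_eq (𝓞 F) (𝓞 L) (𝓞 M)
  have hn : Ideal.absNorm w.asIdeal = Ideal.absNorm (w.under (𝓞 F)).asIdeal := by
    rw [absNorm_rdeg (K := F) w, h1, pow_one]
  refine ⟨P, hPm, ?_, fun x => ?_⟩
  · rw [hmap, ← Ideal.comap_comap, hPw]
    rfl
  · obtain ⟨y, hy, hyx⟩ := hP x
    rw [hn] at hyx
    exact ⟨y, hy, hyx⟩

theorem fr3 (F L M : Type) [Field F] [NumberField F] [Field L] [NumberField L] [Field M]
    [NumberField M] [Algebra F L] [Algebra L M] [Algebra F M] [IsScalarTower F L M]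
    (w : HeightOneSpectrum (𝓞 L)) (hw : Unramified M (w.under (𝓞 F))) : Unramified M w := by
  intro P hP hle
  have hmap : algebraMap (𝓞 F) (𝓞 M) = (algebraMap (𝓞 L) (𝓞 M)).comp (algebraMap (𝓞 F) (𝓞 L)) :=
    IsScalarTower.algebraMap_eq (𝓞 F) (𝓞 L) (𝓞 M)
  refine hw P ?_ ?_
  · apply HeightOneSpectrum.ext
    change P.asIdeal.comap (algebraMap (𝓞 F) (𝓞 M)) =
      w.asIdeal.comap (algebraMap (𝓞 F) (𝓞 L))
    rw [hmap, ← Ideal.comap_comap, ← hP]
    rfl
  · refine le_trans ?_ hle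
    rw [hmap, ← Ideal.map_map]
    refine Ideal.map_mono ?_
    rw [Ideal.map_le_iff_le_comap]
    exact le_rfl

theorem fr4 (F E : Type) [Field F] [NumberField F] [Field E] [NumberField E] [Algebra F E]
    [IsGalois F E] (w : HeightOneSpectrum (𝓞 E)) (g : E ≃ₐ[F] E)
    (hu : Unramified E (w.under (𝓞 F))) (hg : IsFrobenius (w.under (𝓞 F)) g) :
    orderOf g = rdeg F w := by
  classical
  have hcf := fun n => card_fixed (K := F) (F := E) (M := E) hu hg n
  have hw : w ∈ above E (w.under (𝓞 F)) := mem_above.2 rfl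
  have hfin : Finite (E →ₐ[F] E) := inferInstance
  apply Nat.dvd_antisymm
  · rw [orderOf_dvd_iff_pow_eq_one]
    have h1 := hcf (rdeg F w)
    have h2 : 0 < ∑ w' ∈ above E (w.under (𝓞 F)), if rdeg F w' ∣ rdeg F w then rdeg F w' else 0 := by
      refine lt_of_lt_of_le ?_ (Finset.single_le_sum (fun _ _ => Nat.zero_le _) hw)
      rw [if_pos dvd_rfl]
      exact rdeg_pos w
    rw [← h1] at h2
    obtain ⟨⟨j, hj⟩⟩ := (Nat.card_pos_iff.1 h2).1
    ext x
    obtain ⟨y, rfl⟩ := (Algebra.IsAlgebraic.algHom_bijective j).2 x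
    rw [hj y]
    rfl
  · have h1 := hcf (orderOf g)
    have h2 : Nat.card {j : E →ₐ[F] E // ∀ x, (g ^ orderOf g) (j x) = j x} =
        Module.finrank F E := by
      rw [← IsGalois.card_aut_eq_finrank]
      refine Nat.card_congr ((Equiv.subtypeUnivEquiv fun j => ?_).trans ?_)
      · intro x
        rw [pow_orderOf_eq_one]
        rfl
      · exact (algEquivEquivAlgHom F E).symm.toEquiv
    rw [h2, ← sum_rdeg hu] at h1
    by_contra hnd
    have h3 : ∑ w' ∈ above E (w.under (𝓞 F)), (if rdeg F w' ∣ orderOf g then rdeg F w' else 0) <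
        ∑ w' ∈ above E (w.under (𝓞 F)), rdeg F w' := by
      refine Finset.sum_lt_sum (fun i _ => ?_) ⟨w, hw, ?_⟩
      · split_ifs
        · exact le_rfl
        · exact Nat.zero_le _
      · rw [if_neg hnd]
        exact rdeg_pos w
    exact absurd h1.symm h3.ne

/-- JOB FR -/
theorem fr : S_FR := ⟨fr1, fr2, fr3, fr4⟩

end Pool.Agent.Q225.AR
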