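import Pool.Agent.Q92.AR.Stm
import Pool.Agent.Q125.AR.Base
import Pool.Agent.Q84.AR.Frac

set_option autoImplicit false
set_option linter.unusedSectionVars false
set_option linter.deprecated false

namespace Pool.Agent.Q225.AR

open Pool.Agent.Q92.AR NumberField IsDedekindDomain Pool.Agent.Q5.BR

theorem relIndex_ne_zero_of_inv {A : Type} [AddCommGroup A] {κ : Type} [Finite κ]
    (H K : AddSubgroup A) (φ : K → κ) (h : ∀ x y : K, φ x = φ y → ((x : A) - y) ∈ H) :
    H.relIndex K ≠ 0 := by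
  have : Finite (K ⧸ H.addSubgroupOf K) := by
    refine Finite.of_injective (fun q => φ q.out) ?_
    intro q q' hq
    have h1 := h _ _ hq
    rw [← QuotientAddGroup.out_eq' q, ← QuotientAddGroup.out_eq' q']
    refine QuotientAddGroup.eq.2 ?_
    rw [AddSubgroup.mem_addSubgroupOf]
    have h2 := H.neg_mem h1
    rw [neg_sub] at h2
    rw [AddSubgroup.coe_add, AddSubgroup.coe_neg, neg_add_eq_sub]
    exact h2
  exact AddSubgroup.index_ne_zero_of_finite

section
variable {F : Type} [Field F] [NumberField F]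

theorem exists_ideal (D : Dv F) : ∃ I : (FractionalIdeal (nonZeroDivisors (𝓞 F)) F)ˣ,
    ∀ v, FractionalIdeal.count F v (I : FractionalIdeal (nonZeroDivisors (𝓞 F)) F) = D v := by
  classical
  have h0 : (D.prod fun v n => (v.asIdeal : FractionalIdeal (nonZeroDivisors (𝓞 F)) F) ^ n) ≠ 0 := by
    rw [Finsupp.prod]
    refine Finset.prod_ne_zero_iff.2 fun v _ => zpow_ne_zero _ ?_
    exact FractionalIdeal.coeIdeal_ne_zero.2 v.ne_bot
  exact ⟨Units.mk0 _ h0, fun v => FractionalIdeal.count_finsuppProd F v D⟩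

theorem fin_class (N : ℕ) : (prinHom (F := F)).range.relIndex (Pr F N) ≠ 0 := by
  classical
  have hfin : Finite ((FractionalIdeal (nonZeroDivisors (𝓞 F)) F)ˣ ⧸
      (toPrincipalIdeal (𝓞 F) F).range) :=
    Finite.of_equiv _ (ClassGroup.equiv (R := 𝓞 F) F).toEquiv
  choose I hI using exists_ideal (F := F)
  refine relIndex_ne_zero_of_inv _ _ (fun D => (QuotientGroup.mk (I D) :
    (FractionalIdeal (nonZeroDivisors (𝓞 F)) F)ˣ ⧸ (toPrincipalIdeal (𝓞 F) F).range)) ?_
  intro D D' h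
  obtain ⟨x, hx⟩ := QuotientGroup.eq.1 h
  refine ⟨Additive.ofMul x⁻¹, ?_⟩
  show prin x⁻¹ = _
  rw [prin_inv]
  ext v
  have h1 : I D' = I D * toPrincipalIdeal (𝓞 F) F x := by
    rw [hx]
    group
  have h2 := hI D' v
  rw [h1, Units.val_mul, coe_toPrincipalIdeal, FractionalIdeal.count_mul, hI D v] at h2
  · rw [Finsupp.neg_apply, Finsupp.sub_apply, prin_apply]
    linarith
  · exact (I D).ne_zero
  · exact FractionalIdeal.spanSingleton_ne_zero_iff.2 x.ne_zero

/-- residues -/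
theorem exists_res {N : ℕ} (hN : N ≠ 0) {x : Fˣ} (hx : prin x ∈ Pr F N) :
    ∃ a b : 𝓞 F, (N : 𝓞 F) ∣ b - 1 ∧ (x : F) * (b : F) = a := by
  have hval : ∀ v : HeightOneSpectrum (𝓞 F), (N : 𝓞 F) ∈ v.asIdeal →
      v.valuation F (x : F) = 1 := by
    intro v hv
    rw [Pool.Agent.Q125.AR.valuation_eq_exp, hx v hv, neg_zero, WithZero.exp_zero]
  have h1 : Pool.Agent.Q84.AR.den (x : F) ⊔ Ideal.span {(N : 𝓞 F)} = ⊤ := by
    by_contra h
    obtain ⟨P, hP, hle⟩ := Ideal.exists_le_maximal _ h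
    have hNP : (N : 𝓞 F) ∈ P := hle (Ideal.mem_sup_right (Ideal.mem_span_singleton_self _))
    have hP0 : P ≠ ⊥ := by
      rintro rfl
      rw [Ideal.mem_bot] at hNP
      exact hN (by exact_mod_cast hNP)
    let v : HeightOneSpectrum (𝓞 F) := ⟨P, hP.isPrime, hP0⟩
    have h1 : v.valuation F (x : F) = 1 := hval v hNP
    obtain ⟨n, d, hnd⟩ := v.exists_primeCompl_mul_eq_of_integer (x : F) h1.le
    exact d.2 (hle (Ideal.mem_sup_left ⟨n, hnd⟩))
  rw [Ideal.eq_top_iff_one, Submodule.mem_sup] at h1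
  obtain ⟨b, hb, c, hcN, hbc⟩ := h1
  obtain ⟨a, ha⟩ := hb
  refine ⟨a, b, ?_, ha⟩
  rw [← hbc]
  have h2 : b - (b + c) = -c := by ring
  rw [h2, dvd_neg]
  exact Ideal.mem_span_singleton.1 hcN

theorem fin_ray {N : ℕ} (hN : N ≠ 0) :
    (RayD F N).relIndex ((prinHom (F := F)).range ⊓ Pr F N) ≠ 0 := by
  classical
  have hfin : Finite (𝓞 F ⧸ Ideal.span {(N : 𝓞 F)}) := by
    refine Ideal.finiteQuotientOfFreeOfNeBot _ ?_
    intro h
    have h1 : (N : 𝓞 F) = 0 := Ideal.span_singleton_eq_bot.1 h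
    exact hN (Nat.cast_eq_zero.1 h1)
  have hx : ∀ D : ((prinHom (F := F)).range ⊓ Pr F N : AddSubgroup (Dv F)),
      ∃ x : Fˣ, prin x = (D : Dv F) := by
    rintro ⟨D, ⟨⟨x, hx⟩, _⟩⟩
    exact ⟨x.toMul, hx⟩
  choose x hx using hx
  have hxP : ∀ D, prin (x D) ∈ Pr F N := fun D => by rw [hx]; exact D.2.2
  choose a b hb hab using fun D => exists_res hN (hxP D)
  refine relIndex_ne_zero_of_inv (κ := (𝓞 F ⧸ Ideal.span {(N : 𝓞 F)}) × ((F →+* ℝ) → Prop)) _ _
    (fun D => ((Ideal.Quotient.mk _ (a D)), fun φ => 0 < φ (x D : F))) ?_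
  intro D D' h
  rw [Prod.ext_iff] at h
  obtain ⟨h1, h2⟩ := h
  simp only at h1 h2
  rw [← hx D, ← hx D', ← prin_div]
  refine AddSubgroup.subset_closure ⟨x D / x D', ⟨?_, ?_⟩, rfl⟩
  · intro v hv
    rw [Ideal.Quotient.eq] at h1
    obtain ⟨c, hc⟩ := Ideal.mem_span_singleton.1 h1
    obtain ⟨c1, hc1⟩ := hb D
    obtain ⟨c2, hc2⟩ := hb D'
    have hNv : v.valuation F (N : F) < 1 := by
      have h := (v.valuation_lt_one_iff_mem (K := F) (N : 𝓞 F)).2 hv
      simpa using h
    have hvb : ∀ b : 𝓞 F, (N : 𝓞 F) ∣ b - 1 → v.valuation F (b : F) = 1 := by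
      rintro b ⟨c, hc⟩
      have h3 : v.valuation F ((b : F) - 1) ≤ v.valuation F (N : F) := by
        have h4 : (b : F) - 1 = (N : F) * (c : F) := by
          have := congrArg (algebraMap (𝓞 F) F) hc
          simpa using this
        rw [h4, map_mul]
        exact mul_le_of_le_one_right' (v.valuation_le_one c)
      exact val_eq_one hv h3
    have hxv : v.valuation F (x D' : F) = 1 := by
      rw [Pool.Agent.Q125.AR.valuation_eq_exp, hxP D' v hv, neg_zero, WithZero.exp_zero]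
    have hb1 := hvb _ (hb D)
    have hb2 := hvb _ (hb D')
    have hb1' : (b D : F) ≠ 0 := fun h0 => by rw [h0, map_zero] at hb1; exact zero_ne_one hb1
    have hb2' : (b D' : F) ≠ 0 := fun h0 => by rw [h0, map_zero] at hb2; exact zero_ne_one hb2
    have hx2' : (x D' : F) ≠ 0 := (x D').ne_zero
    have e1 : ((x D / x D' : Fˣ) : F) - 1 = (((a D : F) * b D' - a D' * b D)) /
        ((b D : F) * (b D') * x D') := by
      rw [Units.val_div_eq_div_val, ← hab D, ← hab D']
      field_simp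
    have e2 : ((a D : F) * b D' - a D' * b D)
        = (N : F) * ((c * b D' + a D' * (c2 - c1) : 𝓞 F) : F) := by
      have e3 : a D * b D' - a D' * b D = (N : 𝓞 F) * (c * b D' + a D' * (c2 - c1)) := by
        have e4 : a D = a D' + N * c := by rw [← hc]; ring
        have e5 : b D = 1 + N * c1 := by rw [← hc1]; ring
        have e6 : b D' = 1 + N * c2 := by rw [← hc2]; ring
        rw [e4, e5, e6]
        ring
      have := congrArg (algebraMap (𝓞 F) F) e3
      simpa using this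
    rw [e1, map_div₀, map_mul, map_mul, hb1, hb2, hxv, mul_one, mul_one, div_one, e2, map_mul]
    exact mul_le_of_le_one_right' (v.valuation_le_one _)
  · intro φ
    rw [Units.val_div_eq_div_val, map_div₀]
    have h3 : (0 < φ (x D : F)) = (0 < φ (x D' : F)) := congrFun h2 φ
    have h4 : φ (x D : F) ≠ 0 := (map_ne_zero φ).2 (x D).ne_zero
    have h5 : φ (x D' : F) ≠ 0 := (map_ne_zero φ).2 (x D').ne_zero
    rcases lt_or_gt_of_ne h5 with h6 | h6
    · have h7 : ¬ 0 < φ (x D : F) := by rw [h3]; exact not_lt.2 h6.le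
      exact div_pos_of_neg_of_neg (lt_of_le_of_ne (not_lt.1 h7) h4) h6
    · exact div_pos (h3 ▸ h6) h6

/-- JOB FIN -/
theorem fin : S_Fin := by
  intro F _ _ N hN
  have h1 := fin_ray (F := F) hN
  have h2 := fin_class (F := F) N
  rw [← AddSubgroup.inf_relIndex_right] at h2
  exact AddSubgroup.relIndex_ne_zero_trans h1 h2

end

end Pool.Agent.Q225.AR
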