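import Pool.Agent.Q92.AR.Stm

set_option autoImplicit false
set_option linter.unusedSectionVars false

namespace Pool.Agent.Q225.AR

open Pool.Agent.Q92.AR

section
variable {X : Type} (e : Equiv.Perm X) (a : X → ℤ)

/-- partial sums along an orbit -/
def S (m : ℕ) (x : X) : ℤ := ∑ i ∈ Finset.range m, a ((e ^ i) x)

theorem S_add (m k : ℕ) (x : X) : S e a (m + k) x = S e a m x + S e a k ((e ^ m) x) := by
  unfold S
  rw [Finset.sum_range_add]
  congr 1
  refine Finset.sum_congr rfl fun i _ => ?_
  rw [add_comm m i, pow_add, Equiv.Perm.mul_apply]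

theorem pow_fix {m : ℕ} {x : X} (h : (e ^ m) x = x) (q : ℕ) : (e ^ (m * q)) x = x := by
  induction q with
  | zero => simp
  | succ q ih =>
    rw [Nat.mul_succ, pow_add, Equiv.Perm.mul_apply, h, ih]

theorem S_mul {m : ℕ} {x : X} (h : (e ^ m) x = x) (q : ℕ) : S e a (m * q) x = q * S e a m x := by
  induction q with
  | zero => simp [S]
  | succ q ih =>
    rw [Nat.mul_succ, S_add, pow_fix e h, ih]
    push_cast
    ring

end

section
variable {X Y : Type} [Fintype X] [Fintype Y] (e : Equiv.Perm X) (n : ℕ) (π : X → Y)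
  (d : Y → ℕ) (σ : AddMonoid.End (X → ℤ)) (hn : 0 < n) (hen : e ^ n = 1)
  (hπ : Function.Surjective π)
  (horb : ∀ x x', π x = π x' ↔ ∃ k : ℕ, (e ^ k) x = x')
  (hd : ∀ y, Nat.card {x // π x = y} * d y = n)
  (hσ : ∀ a x, σ a x = a (e x))

include hσ in
theorem sig_pow (i : ℕ) (a : X → ℤ) (x : X) : (σ ^ i) a x = a ((e ^ i) x) := by
  induction i generalizing x with
  | zero => simp
  | succ i ih =>
    have h : (σ ^ (i + 1)) a = σ ((σ ^ i) a) := by
      rw [pow_succ']
      rfl
    rw [h, hσ, ih, pow_succ, Equiv.Perm.mul_apply]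

include hσ in
theorem tr_eq (a : X → ℤ) (x : X) : tr σ n a x = S e a n x := by
  rw [tr_apply, Finset.sum_apply]
  unfold S
  exact Finset.sum_congr rfl fun i _ => sig_pow e σ hσ i a x

include hn hen horb hd in
theorem S_fib [DecidableEq Y] (a : X → ℤ) (x : X) :
    S e a n x = d (π x) * ∑ x' ∈ Finset.univ.filter (fun x' => π x' = π x), a x' := by
  classical
  obtain ⟨p, hp⟩ : ∃ p, p = Function.minimalPeriod e x := ⟨_, rfl⟩
  have hper : Function.IsPeriodicPt e n x := by
    have h : (e ^ n) x = x := by rw [hen]; rfl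
    rw [Equiv.Perm.coe_pow] at h
    exact h
  have hp0 : 0 < p := by
    rw [hp]
    exact hper.minimalPeriod_pos hn
  have hfix : (e ^ p) x = x := by
    rw [Equiv.Perm.coe_pow, hp]
    exact Function.iterate_minimalPeriod
  have himg : (Finset.range p).image (fun i => (e ^ i) x)
      = Finset.univ.filter (fun x' => π x' = π x) := by
    ext x'
    rw [Finset.mem_image, Finset.mem_filter]
    constructor
    · rintro ⟨i, _, hi⟩
      exact ⟨Finset.mem_univ _, ((horb x x').2 ⟨i, hi⟩).symm⟩
    · rintro ⟨_, h⟩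
      obtain ⟨k, hk⟩ := (horb x x').1 h.symm
      refine ⟨k % p, Finset.mem_range.2 (Nat.mod_lt _ hp0), ?_⟩
      rw [← hk, Equiv.Perm.coe_pow, Equiv.Perm.coe_pow, hp]
      exact Function.iterate_mod_minimalPeriod_eq
  have hinj : Set.InjOn (fun i => (e ^ i) x) (Finset.range p : Set ℕ) := by
    have h := Function.iterate_injOn_Iio_minimalPeriod (f := e) (x := x)
    intro i hi j hj hij
    refine h ?_ ?_ ?_
    · rw [Set.mem_Iio, ← hp]
      simpa using hi
    · rw [Set.mem_Iio, ← hp]
      simpa using hj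
    · simpa [Equiv.Perm.coe_pow] using hij
  have hcard : Nat.card {x' // π x' = π x} = p := by
    rw [Nat.card_eq_fintype_card, Fintype.card_subtype, ← himg, Finset.card_image_of_injOn hinj,
      Finset.card_range]
  have hpd : p * d (π x) = n := by
    rw [← hcard]
    exact hd _
  rw [← himg, Finset.sum_image hinj, ← hpd, S_mul e a hfix]
  rfl

include hn hen in
theorem S_zero {a : X → ℤ} (ha : ∀ x, S e a n x = 0) {m : ℕ} {x : X} (h : (e ^ m) x = x) :
    S e a m x = 0 := by
  have h1 := S_mul e a h n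
  have h2 : (e ^ n) x = x := by rw [hen]; rfl
  have h3 := S_mul e a h2 m
  rw [mul_comm m n, h3, ha, mul_zero] at h1
  have h4 : (n : ℤ) ≠ 0 := by exact_mod_cast hn.ne'
  exact (mul_eq_zero.1 h1.symm).resolve_left h4

include hn hen in
theorem S_wd {a : X → ℤ} (ha : ∀ x, S e a n x = 0) {k l : ℕ} {x : X}
    (h : (e ^ k) x = (e ^ l) x) : S e a k x = S e a l x := by
  wlog hkl : k ≤ l generalizing k l with H
  · exact (H h.symm (le_of_not_ge hkl)).symm
  · obtain ⟨m, rfl⟩ := Nat.exists_eq_add_of_le hkl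
    rw [S_add]
    have h2 : (e ^ m) ((e ^ k) x) = (e ^ k) x := by
      rw [← Equiv.Perm.mul_apply, ← pow_add, add_comm m k]
      exact h.symm
    rw [S_zero e n hn hen ha h2, add_zero]

include hn hen hπ horb hσ in
theorem q1_one : q1 σ n = 1 := by
  unfold q1
  rw [AddSubgroup.relIndex_eq_one]
  intro a ha
  rw [AddMonoidHom.mem_ker] at ha
  have ha' : ∀ x, S e a n x = 0 := by
    intro x
    rw [← tr_eq e n σ hσ, ha]
    rfl
  obtain ⟨s, hs⟩ := hπ.hasRightInverse
  have hk : ∀ x, ∃ k : ℕ, (e ^ k) (s (π x)) = x := fun x => (horb _ _).1 (hs (π x))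
  choose k hk using hk
  refine ⟨fun x => S e a (k x) (s (π x)), ?_⟩
  funext x
  rw [df_apply]
  show σ (fun x => S e a (k x) (s (π x))) x - _ = _
  rw [hσ]
  have hpe : π (e x) = π x := ((horb x (e x)).2 ⟨1, by simp⟩).symm
  have h1 : S e a (k (e x)) (s (π (e x))) = S e a (k x + 1) (s (π x)) := by
    rw [hpe]
    refine S_wd e n hn hen ha' ?_
    have h2 := hk (e x)
    rw [hpe] at h2
    rw [h2, add_comm, pow_add, Equiv.Perm.mul_apply, hk x, pow_one]
  show S e a (k (e x)) (s (π (e x))) - S e a (k x) (s (π x)) = a x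
  rw [h1, S_add, hk x]
  unfold S
  simp

/-- pull back of functions -/
def pb (π : X → Y) : (Y → ℤ) →+ (X → ℤ) where
  toFun f := f ∘ π
  map_zero' := rfl
  map_add' _ _ := rfl

include hπ horb hσ in
theorem range_pb : (df σ).ker = (pb π).range := by
  ext a
  rw [AddMonoidHom.mem_ker, AddMonoidHom.mem_range]
  constructor
  · intro h
    have h1 : ∀ x, a (e x) = a x := by
      intro x
      have h2 := congrFun h x
      rw [df_apply] at h2
      have h3 : σ a x - a x = 0 := h2
      rw [hσ] at h3
      linarith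
    have h2 : ∀ (k : ℕ) x, a ((e ^ k) x) = a x := by
      intro k
      induction k with
      | zero => intro x; simp
      | succ k ih =>
        intro x
        rw [pow_succ, Equiv.Perm.mul_apply, ih, h1]
    obtain ⟨s, hs⟩ := hπ.hasRightInverse
    refine ⟨a ∘ s, ?_⟩
    funext x
    obtain ⟨k, hk⟩ := (horb _ _).1 (hs (π x))
    show a (s (π x)) = a x
    rw [← h2 k, hk]
  · rintro ⟨f, rfl⟩
    funext x
    rw [df_apply]
    show σ ((pb π) f) x - (pb π) f x = 0
    rw [hσ]
    have hpe : π (e x) = π x := ((horb x (e x)).2 ⟨1, by simp⟩).symm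
    show f (π (e x)) - f (π x) = 0
    rw [hpe, sub_self]

/-- reduction modulo `d y` -/
def redd (d : Y → ℕ) : (Y → ℤ) →+ (∀ y, ZMod (d y)) where
  toFun f := fun y => (f y : ZMod (d y))
  map_zero' := by funext y; simp
  map_add' f g := by funext y; simp

include hn hen hπ horb hd hσ in
theorem q0_prod : q0 σ n = ∏ y, d y := by
  classical
  unfold q0
  have h1 : (df σ).ker = AddSubgroup.map (pb π) ⊤ := by
    rw [range_pb e π σ hπ horb hσ, AddMonoidHom.range_eq_map]
  rw [h1, ← AddSubgroup.relIndex_comap, AddSubgroup.relIndex_top_right]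
  have h2 : AddSubgroup.comap (pb π) (tr σ n).range = (redd d).ker := by
    ext f
    rw [AddSubgroup.mem_comap, AddMonoidHom.mem_range, AddMonoidHom.mem_ker]
    constructor
    · rintro ⟨a, ha⟩
      funext y
      obtain ⟨x, rfl⟩ := hπ y
      have h3 := congrFun ha x
      rw [tr_eq e n σ hσ, S_fib e n π d hn hen horb hd] at h3
      have h4 : f (π x) = d (π x) * ∑ x' ∈ Finset.univ.filter (fun x' => π x' = π x), a x' :=
        h3.symm
      show ((f (π x) : ℤ) : ZMod (d (π x))) = 0
      rw [ZMod.intCast_zmod_eq_zero_iff_dvd]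
      exact ⟨_, h4⟩
    · intro h
      have h3 : ∀ y, ∃ c, f y = d y * c := by
        intro y
        have h4 := congrFun h y
        have h5 : ((f y : ℤ) : ZMod (d y)) = 0 := h4
        rw [ZMod.intCast_zmod_eq_zero_iff_dvd] at h5
        exact h5
      choose g hg using h3
      obtain ⟨s, hs⟩ := hπ.hasRightInverse
      refine ⟨fun x => if x = s (π x) then g (π x) else 0, ?_⟩
      funext x
      rw [tr_eq e n σ hσ, S_fib e n π d hn hen horb hd]
      show _ = f (π x)
      rw [hg]
      congr 1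
      rw [Finset.sum_eq_single (s (π x))]
      · rw [hs (π x), if_pos rfl]
      · intro b hb hne
        rw [Finset.mem_filter] at hb
        rw [if_neg]
        rw [hb.2]
        exact hne
      · intro hb
        refine absurd ?_ hb
        rw [Finset.mem_filter]
        exact ⟨Finset.mem_univ _, hs (π x)⟩
  rw [h2, AddSubgroup.index_ker]
  have h3 : (redd d).range = ⊤ := by
    rw [AddMonoidHom.range_eq_top]
    intro g
    refine ⟨fun y => (ZMod.intCast_surjective (g y)).choose, ?_⟩
    funext y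
    exact (ZMod.intCast_surjective (g y)).choose_spec
  rw [h3, AddSubgroup.card_top, Nat.card_pi]
  exact Finset.prod_congr rfl fun y _ => Nat.card_zmod _

end

/-- JOB PERM -/
theorem perm : S_Perm := by
  intro X Y _ _ e n π d σ hn hen hπ horb hd hσ
  exact ⟨q1_one e n π σ hn hen hπ horb hσ, q0_prod e n π d σ hn hen hπ horb hd hσ⟩

end Pool.Agent.Q225.AR
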