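import Pool.Agent.Q92.AR.Stm
import Pool.Agent.Q125.AR.Base

set_option autoImplicit false
set_option linter.unusedSectionVars false
set_option linter.deprecated false

namespace Pool.Agent.Q225.AR

open Pool.Agent.Q92.AR NumberField IsDedekindDomain Pool.Agent.Q5.BR

section
variable {A : Type} [AddCommGroup A] {σ : AddMonoid.End A} {H : AddSubgroup A}
  {τ : AddMonoid.End H}

theorem isRes_pow (h : IsRes σ τ) (i : ℕ) (u : H) : (((τ ^ i) u : H) : A) = (σ ^ i) (u : A) := by
  induction i generalizing u with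
  | zero => rfl
  | succ i ih =>
    rw [pow_succ, pow_succ]
    show (((τ ^ i) (τ u) : H) : A) = (σ ^ i) (σ (u : A))
    rw [ih, h u]

theorem isRes_tr (h : IsRes σ τ) (n : ℕ) (u : H) : ((tr τ n u : H) : A) = tr σ n (u : A) := by
  rw [tr_apply, tr_apply, AddSubgroup.val_finsetSum]
  exact Finset.sum_congr rfl fun i _ => isRes_pow h i u

end

section
variable {F E : Type} [Field F] [NumberField F] [Field E] [NumberField E] [Algebra F E]

theorem sE_pow (σ : E ≃ₐ[F] E) (i : ℕ) (x : Additive Eˣ) :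
    (((sE σ ^ i) x).toMul : E) = (σ ^ i) ((x.toMul : Eˣ) : E) := by
  induction i generalizing x with
  | zero => rfl
  | succ i ih =>
    rw [pow_succ, pow_succ]
    show (((sE σ ^ i) (sE σ x)).toMul : E) = (σ ^ i) (σ ((x.toMul : Eˣ) : E))
    rw [ih]
    rfl

theorem tr_norm [IsGalois F E] (σ : E ≃ₐ[F] E) (hσ : ∀ g : E ≃ₐ[F] E, g ∈ Subgroup.zpowers σ)
    (x : Additive Eˣ) : ((tr (sE σ) (Module.finrank F E) x).toMul : E) =
      algebraMap F E (Algebra.norm F ((x.toMul : Eˣ) : E)) := by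
  classical
  rw [Algebra.norm_eq_prod_automorphisms, tr_apply, toMul_sum, Units.coe_prod]
  have h1 : Finset.image (fun i => σ ^ i) (Finset.range (Nat.card (E ≃ₐ[F] E))) = Finset.univ :=
    IsCyclic.image_range_card hσ
  rw [← h1, IsGalois.card_aut_eq_finrank, Finset.prod_image]
  · exact Finset.prod_congr rfl fun i _ => sE_pow σ i x
  · have h2 : orderOf σ = Module.finrank F E := by
      rw [← IsGalois.card_aut_eq_finrank]
      exact orderOf_eq_card_of_forall_mem_zpowers hσ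
    intro i hi j hj hij
    refine pow_injOn_Iio_orderOf (x := σ) ?_ ?_ hij
    · rw [Set.mem_Iio, h2]
      simpa using hi
    · rw [Set.mem_Iio, h2]
      simpa using hj

/-- there is a prime above -/
theorem exists_above (v : HeightOneSpectrum (𝓞 F)) :
    ∃ w : HeightOneSpectrum (𝓞 E), w.under (𝓞 F) = v := by
  have hvm : v.asIdeal.IsMaximal := v.isMaximal
  obtain ⟨P, hP, hPv⟩ := Ideal.exists_ideal_over_maximal_of_isIntegral (S := 𝓞 E) v.asIdeal (by
    rw [(RingHom.injective_iff_ker_eq_bot _).1 (FaithfulSMul.algebraMap_injective (𝓞 F) (𝓞 E))]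
    exact bot_le)
  refine ⟨⟨P, hP.isPrime, ?_⟩, HeightOneSpectrum.ext hPv⟩
  rintro rfl
  apply v.ne_bot
  rw [← hPv, ← RingHom.ker_eq_comap_bot]
  exact (RingHom.injective_iff_ker_eq_bot _).1 (FaithfulSMul.algebraMap_injective (𝓞 F) (𝓞 E))

theorem under_act (σ : E ≃ₐ[F] E) (w : HeightOneSpectrum (𝓞 E)) :
    (Pool.Agent.TeamU.act σ w).under (𝓞 F) = w.under (𝓞 F) := by
  apply HeightOneSpectrum.ext
  exact Pool.Agent.TeamU.over_act σ (P := w) (v := w.under (𝓞 F)) rfl

theorem act_inj (σ : E ≃ₐ[F] E) : Function.Injective (Pool.Agent.TeamU.act (k := F) σ) := by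
  intro w w' h
  have h1 := congrArg (Pool.Agent.TeamU.act σ⁻¹) h
  rw [← Pool.Agent.TeamU.act_mul, ← Pool.Agent.TeamU.act_mul, inv_mul_cancel,
    Pool.Agent.TeamU.act_one, Pool.Agent.TeamU.act_one] at h1
  exact h1

theorem act_surj (σ : E ≃ₐ[F] E) (w : HeightOneSpectrum (𝓞 E)) :
    ∃ w', Pool.Agent.TeamU.act σ w' = w := by
  refine ⟨Pool.Agent.TeamU.act σ⁻¹ w, ?_⟩
  rw [← Pool.Agent.TeamU.act_mul, mul_inv_cancel, Pool.Agent.TeamU.act_one]

theorem sD_act (σ : E ≃ₐ[F] E) (D : Dv E) (w : HeightOneSpectrum (𝓞 E)) :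
    sD σ D (Pool.Agent.TeamU.act σ w) = D w := by
  classical
  show Finsupp.mapDomain (Pool.Agent.TeamU.act σ) D (Pool.Agent.TeamU.act σ w) = D w
  exact Finsupp.mapDomain_apply (act_inj σ) D w

/-- the divisor of an element congruent to one -/
theorem prin_cong {K : Type} [Field K] [NumberField K] {N : ℕ} {x : Kˣ} (hx : Cong N (x : K))
    {v : HeightOneSpectrum (𝓞 K)} (hv : (N : 𝓞 K) ∈ v.asIdeal) : prin x v = 0 :=
  Pool.Agent.Q125.AR.prin_eq_zero_of_valuation (val_eq_one hv (hx v hv))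

theorem nu_up (c : Fˣ) : nu F E (up F E c) = c ^ Module.finrank F E := by
  apply Units.ext
  show Algebra.norm F (algebraMap F E (c : F)) = ((c ^ Module.finrank F E : Fˣ) : F)
  rw [Algebra.norm_algebraMap, Units.val_pow_eq_pow_val]

theorem prin_pow {K : Type} [Field K] [NumberField K] (x : Kˣ) (n : ℕ) :
    prin (x ^ n) = n • prin x := by
  have h := (prinHom (F := K)).map_nsmul n (Additive.ofMul x)
  exact h

/-- JOB Q1 -/
theorem q1one (hSD : S_SD) (hNm : S_Nm) : S_Q1 := by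
  intro F E _ _ _ _ _ _ σ hσ N A T hN hRam hAN hA hT τ hτ
  obtain ⟨hsd1, -, hsd3, -, hsd5, hsd6, -⟩ := hSD F E σ hσ
  obtain ⟨-, hnm2, -⟩ := hNm F E
  have hn : 0 < Module.finrank F E := Module.finrank_pos
  unfold q1
  rw [AddSubgroup.relIndex_eq_one]
  intro x hx
  rw [AddMonoidHom.mem_ker] at hx
  -- the norm of `x` is one
  have hnorm : Algebra.norm F (((x : Additive Eˣ).toMul : Eˣ) : E) = 1 := by
    have h1 := isRes_tr hτ (Module.finrank F E) x
    rw [hx] at h1
    have h2 := tr_norm σ hσ (x : Additive Eˣ)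
    rw [← h1] at h2
    have h3 : algebraMap F E (Algebra.norm F (((x : Additive Eˣ).toMul : Eˣ) : E))
        = algebraMap F E 1 := by
      rw [← h2, map_one]
      rfl
    exact FaithfulSMul.algebraMap_injective F E h3
  have hcyc : IsCyclic (E ≃ₐ[F] E) := ⟨σ, hσ⟩
  obtain ⟨y, hy⟩ := groupCohomology.exists_div_of_norm_eq_one hσ hnorm
  -- `σ z / z = x`
  obtain ⟨z, hz⟩ : ∃ z : Eˣ, Units.map (σ : E →* E) z / z = (x : Additive Eˣ).toMul := by
    refine ⟨y⁻¹, ?_⟩
    apply Units.ext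
    rw [← hy]
    simp [div_eq_mul_inv, mul_comm]
  have hxA : (x : Additive Eˣ).toMul ∈ A := x.2.1
  obtain ⟨c, hc⟩ := hA z (by rw [hz]; exact hxA)
  obtain ⟨a, ha⟩ : ∃ a : Eˣ, a = z / up F E c := ⟨_, rfl⟩
  rw [← ha] at hc
  have hσup : ∀ c : Fˣ, Units.map (σ : E →* E) (up F E c) = up F E c := by
    intro c
    apply Units.ext
    exact σ.commutes (c : F)
  have hσa : Units.map (σ : E →* E) a / a = (x : Additive Eˣ).toMul := by
    rw [← hz, ha, map_div, hσup]
    rw [div_div_div_cancel_right]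
  -- the divisor of `a`
  have hdiv : ∀ w, w.under (𝓞 F) ∉ T → prin a (Pool.Agent.TeamU.act σ w) = prin a w := by
    intro w hw
    have h1 : prin (Units.map (σ : E →* E) a) = sD σ (prin a) := hsd1 (Additive.ofMul a)
    have h2 : prin (Units.map (σ : E →* E) a / a) = sD σ (prin a) - prin a := by
      rw [prin_div, h1]
    rw [hσa] at h2
    have h3 := x.2.2 (Pool.Agent.TeamU.act σ w) (by rw [under_act]; exact hw)
    have h4 := congrArg (fun D : Dv E => D (Pool.Agent.TeamU.act σ w)) h2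
    simp only [Finsupp.sub_apply, sD_act] at h4
    rw [h3] at h4
    linarith
  classical
  obtain ⟨D, hD⟩ : ∃ D : Dv E, D = (prin a).filter (fun w => w.under (𝓞 F) ∉ T) := ⟨_, rfl⟩
  have hDσ : sD σ D = D := by
    ext w
    obtain ⟨w', rfl⟩ := act_surj σ w
    rw [sD_act, hD, Finsupp.filter_apply, Finsupp.filter_apply, under_act]
    by_cases h : w'.under (𝓞 F) ∈ T
    · rw [if_neg (by simpa using h), if_neg (by simpa using h)]
    · rw [if_pos h, if_pos h, hdiv w' h]
  obtain ⟨D', hD'⟩ := hsd6 D hDσ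
  have hDw : ∀ w, D w = D' (w.under (𝓞 F)) := fun w => by
    conv_lhs => rw [hD']
    exact hsd3 D' w
  have hD'Pr : D' ∈ Pr F N := by
    intro v hv
    obtain ⟨w, rfl⟩ := exists_above (E := E) v
    rw [← hDw, hD, Finsupp.filter_apply]
    split_ifs
    · rfl
    · exact prin_cong (hAN a hc) (Pool.Agent.Q125.AR.mem_under.1 hv)
  obtain ⟨c', hc'A, hc'⟩ := hT D' hD'Pr
  have hc'Pr : prin c' ∈ Pr F N := by
    intro v hv
    have h1 := hnm2 N (up F E c') hN (hAN _ hc'A)
    rw [nu_up] at h1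
    have h2 := prin_cong (x := c' ^ Module.finrank F E) h1 hv
    rw [prin_pow, Finsupp.smul_apply, smul_eq_zero] at h2
    exact h2.resolve_left hn.ne'
  have hup := hsd5 N hRam c' hc'Pr
  obtain ⟨b, hb⟩ : ∃ b : Eˣ, b = a / up F E c' := ⟨_, rfl⟩
  have hbA : b ∈ A := by
    rw [hb]
    exact A.div_mem hc hc'A
  have hbT : prin b ∈ SupE F E T := by
    intro w hw
    rw [hb, prin_div, Finsupp.sub_apply, hup, hsd3]
    have h1 : prin a w = D w := by
      rw [hD, Finsupp.filter_apply, if_pos hw]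
    have h2 := hc' (w.under (𝓞 F)) hw
    rw [Finsupp.sub_apply] at h2
    rw [h1, hDw]
    exact h2
  have hσb : Units.map (σ : E →* E) b / b = (x : Additive Eˣ).toMul := by
    rw [← hσa, hb, map_div, hσup]
    rw [div_div_div_cancel_right]
  refine ⟨⟨Additive.ofMul b, hbA, hbT⟩, ?_⟩
  apply Subtype.ext
  rw [df_apply, AddSubgroup.coe_sub, hτ]
  apply Additive.toMul.injective
  rw [← hσb]
  rfl

end

end Pool.Agent.Q225.AR
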